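import Pool.Agent.GTO.StmtsA

/-! Squad GTO, row MEL: Melchior's identity for the topes. -/

namespace Pool.Agent.GTO.H3

open Finset
open scoped Classical

theorem dt_comb (p q : V) (s₁ t₁ s₂ t₂ s₃ t₃ : ℝ) :
    dt (s₁ • p + t₁ • q) (s₂ • p + t₂ • q) (s₃ • p + t₃ • q) = 0 := by
  simp only [dt, Pi.add_apply, Pi.smul_apply, smul_eq_mul]
  ring

theorem dt_bv {ι : Type} (a : ι → V) (σ : ι → Bool) (i j k : ι) :
    dt (bv a σ i) (bv a σ j) (bv a σ k) = sg (σ i) * sg (σ j) * sg (σ k) * dt (a i) (a j) (a k) := by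
  simp only [dt, bv, Pi.smul_apply, smul_eq_mul]
  ring

theorem sg_ne (b : Bool) : sg b ≠ 0 := by
  cases b <;> simp [sg]

theorem mel (hbas : BasStmt) (hcir : CirStmt) (htot : TotStmt) (hfar : FarStmt) : MelStmt := by
  intro ι _ a hPI hSpn
  obtain ⟨-, -, -, -, -, hB⟩ := hbas
  obtain ⟨-, -, -, -, hsum, -, htwo⟩ := hB ι a hPI
  obtain ⟨i, j, k, hijk⟩ := hSpn
  have hij : i ≠ j := by
    rintro rfl
    apply hijk
    simp only [dt]
    ring
  have hn : 2 ≤ Fintype.card ι := by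
    have := Fintype.one_lt_card_iff.2 ⟨i, j, hij⟩
    omega
  obtain ⟨-, hcir⟩ := hcir ι a hPI hn
  have htot := htot ι a hPI hn
  have key : ∀ σ ∈ topes a, ∀ W : Finset ι, (∀ l, ∃ c : ι → ℝ, (∀ w, 0 ≤ c w) ∧
      (∀ w, w ∉ W → c w = 0) ∧ bv a σ l = ∑ w, c w • bv a σ w) → 3 ≤ W.card := by
    intro σ _ W hW
    by_contra hlt
    have h1 : ∃ w₁ w₂ : ι, W ⊆ {w₁, w₂} := by
      have h2 : W.card ≤ 2 := by omega
      interval_cases hc : W.card
      · exact ⟨i, i, by rw [Finset.card_eq_zero.1 hc]; exact Finset.empty_subset _⟩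
      · obtain ⟨w, rfl⟩ := Finset.card_eq_one.1 hc
        exact ⟨w, w, by simp⟩
      · obtain ⟨w₁, w₂, -, rfl⟩ := Finset.card_eq_two.1 hc
        exact ⟨w₁, w₂, le_rfl⟩
    obtain ⟨w₁, w₂, h2⟩ := h1
    have h3 : ∀ l, ∃ s t : ℝ, bv a σ l = s • bv a σ w₁ + t • bv a σ w₂ := by
      intro l
      obtain ⟨c, -, hc, hl⟩ := hW l
      have h4 : ∑ w, c w • bv a σ w = ∑ w ∈ ({w₁, w₂} : Finset ι), c w • bv a σ w := by
        symm
        apply Finset.sum_subset (Finset.subset_univ _)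
        intro w _ hw
        rw [hc w fun h => hw (h2 h), zero_smul]
      rw [h4] at hl
      by_cases hw : w₁ = w₂
      · subst hw
        refine ⟨c w₁, 0, ?_⟩
        rw [hl]
        simp
      · rw [Finset.sum_pair hw] at hl
        exact ⟨c w₁, c w₂, hl⟩
    obtain ⟨s₁, t₁, e₁⟩ := h3 i
    obtain ⟨s₂, t₂, e₂⟩ := h3 j
    obtain ⟨s₃, t₃, e₃⟩ := h3 k
    have h5 := dt_comb (bv a σ w₁) (bv a σ w₂) s₁ t₁ s₂ t₂ s₃ t₃
    rw [← e₁, ← e₂, ← e₃, dt_bv] at h5
    exact (mul_ne_zero (mul_ne_zero (mul_ne_zero (sg_ne _) (sg_ne _)) (sg_ne _)) hijk) h5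
  refine ⟨?_, ?_⟩
  · intro σ hσ
    have hσ' : Tope a σ := (Finset.mem_filter.1 hσ).2
    obtain ⟨W, hWw, hW⟩ := hfar ι a hPI hn σ hσ'
    exact (key σ hσ W hW).trans (Finset.card_le_card hWw)
  · have h0 : ∑ σ ∈ topes a, (walls a σ).card =
        ∑ i, (univ.filter fun σ => Tope a σ ∧ Tope a (flp σ i)).card := by
      simp only [Finset.card_filter]
      rw [Finset.sum_comm, topes, Finset.sum_filter]
      refine Finset.sum_congr rfl fun σ _ => ?_
      by_cases h : Tope a σ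
      · simp only [h, if_true, true_and, walls, Finset.card_filter]
      · simp only [h, if_false, false_and, Finset.sum_const_zero]
    have h1 : ∑ σ ∈ topes a, (walls a σ).card = 4 * ∑ ℓ ∈ lns a, ℓ.card := by
      rw [h0, hsum, Finset.mul_sum]
      exact Finset.sum_congr rfl fun i _ => hcir i
    have h2 : ((topes a).card : ℤ) = 2 + 2 * ∑ ℓ ∈ lns a, ((ℓ.card : ℤ) - 1) := by
      rw [htot]
      push_cast
      congr 2
      refine Finset.sum_congr rfl fun ℓ hℓ => ?_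
      have := htwo ℓ hℓ
      omega
    have h1' : ∑ σ ∈ topes a, ((walls a σ).card : ℤ) = 4 * ∑ ℓ ∈ lns a, (ℓ.card : ℤ) := by
      exact_mod_cast h1
    rw [Finset.sum_sub_distrib, h1', Finset.sum_const, nsmul_eq_mul, h2]
    simp only [Finset.sum_sub_distrib, Finset.sum_const, nsmul_eq_mul, ← Finset.mul_sum]
    ring

end Pool.Agent.GTO.H3
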